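import Pool.Agent.H670Z.Tower

/-!
The class of finite groups without elements of order `p`; affine groups of dimension `p - 2`
over a prime field whose order is a primitive root modulo `p`.
-/

set_option autoImplicit false

namespace Pool.Agent.H670Z.Prime

open Pool.Agent.H670Z.Tower

/-- no element of order `p` -/
def NoP (p : ℕ) (G : Type) [Group G] : Prop := ∀ g : G, g ^ p = 1 → g = 1

theorem noP_wreath (p : ℕ) (L Q : Type) [Group L] [Group Q] (hL : NoP p L) (hQ : NoP p Q) :
    NoP p (L ≀ᵣ Q) := by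
  intro w hw
  have h2 : w.right = 1 := by
    apply hQ
    have := congrArg RegularWreathProduct.rightHom hw
    rw [map_pow, map_one] at this
    exact this
  have hpow : ∀ n : ℕ, (w ^ n).left = w.left ^ n := by
    intro n
    induction n with
    | zero => simp
    | succ n ih =>
      rw [pow_succ', pow_succ', RegularWreathProduct.mul_left, ih, h2]
      simp
      rfl
  have h1 : w.left = 1 := by
    funext x
    apply hL
    have := congrFun (hpow p) x
    rw [hw] at this
    simpa using this.symm
  ext <;> simp [h1, h2]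

/-- linear automorphisms of `F^(m+1)` preserving the first coordinate -/
def Aff (F : Type) [Field F] (m : ℕ) : Subgroup ((Fin (m + 1) → F) ≃ₗ[F] (Fin (m + 1) → F)) where
  carrier := {g | ∀ v, g v 0 = v 0}
  mul_mem' := fun {a b} ha hb v => by
    show a (b v) 0 = v 0
    rw [ha, hb]
  one_mem' := fun _ => rfl
  inv_mem' := fun {a} ha v => by
    have := ha (a.symm v)
    rw [LinearEquiv.apply_symm_apply] at this
    exact this.symm

theorem aff_trans (F : Type) [Field F] (m : ℕ) (a b : Fin (m + 1) ↪ F) :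
    ∃ t : Aff F m, ∀ i, t.1 (fun j : Fin (m + 1) => a i ^ (j : ℕ)) =
      fun j : Fin (m + 1) => b i ^ (j : ℕ) := by
  classical
  have hli : ∀ c : Fin (m + 1) ↪ F,
      LinearIndependent F (fun i : Fin (m + 1) => fun j : Fin (m + 1) => c i ^ (j : ℕ)) := by
    intro c
    have : (Matrix.vandermonde c).det ≠ 0 := Matrix.det_vandermonde_ne_zero_iff.2 c.injective
    exact Matrix.linearIndependent_rows_of_det_ne_zero this
  let ba := basisOfLinearIndependentOfCardEqFinrank (hli a) (by simp)
  let bb := basisOfLinearIndependentOfCardEqFinrank (hli b) (by simp)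
  have hba : ∀ i, ba i = fun j : Fin (m + 1) => a i ^ (j : ℕ) := fun i => by simp [ba]
  have hbb : ∀ i, bb i = fun j : Fin (m + 1) => b i ^ (j : ℕ) := fun i => by simp [bb]
  refine ⟨⟨ba.equiv bb (Equiv.refl _), ?_⟩, fun i => ?_⟩
  · have : (LinearMap.proj 0 : (Fin (m + 1) → F) →ₗ[F] F).comp
        (ba.equiv bb (Equiv.refl _)).toLinearMap = LinearMap.proj 0 := by
      apply ba.ext
      intro i
      simp [hba]
      rw [← hba, Module.Basis.equiv_apply]
      simp [hbb]
    intro v
    exact LinearMap.congr_fun this v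
  · show ba.equiv bb (Equiv.refl _) _ = _
    rw [← hba, Module.Basis.equiv_apply, Equiv.refl_apply, hbb]

theorem aff_noP (l m : ℕ) [Fact l.Prime] [hp : Fact (m + 2).Prime]
    (hl : orderOf (l : ZMod (m + 2)) = m + 1) : NoP (m + 2) (Aff (ZMod l) m) := by
  classical
  intro g hg
  have hlu : (l : ZMod (m + 2)) ≠ 0 := by
    intro h
    rw [h, orderOf_zero] at hl
    omega
  have hit : ∀ v, (g.1 ^ (m + 2)) v = v := by
    intro v
    have := congrArg (fun x : Aff (ZMod l) m => x.1 v) hg
    simpa using this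
  let U : Submodule (ZMod l) (Fin (m + 1) → ZMod l) := LinearMap.eqLocus g.1.toLinearMap
    LinearMap.id
  -- the fixed space has the size of the whole space modulo p
  have h1 : Fintype.card (Fin (m + 1) → ZMod l) ≡ Nat.card U [MOD (m + 2)] := by
    have := Equiv.Perm.card_fixedPoints_modEq (α := Fin (m + 1) → ZMod l)
      (f := fun v => g.1 v) (p := m + 2) (n := 1) (by
        funext v
        rw [pow_one]
        show ((fun v => g.1 v)^[m + 2]) v = v
        rw [← LinearEquiv.coe_pow, hit v])
    rw [← Nat.card_eq_fintype_card (α := Function.fixedPoints _)] at this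
    exact this
  -- the affine hyperplane has a fixed point
  let Hy := {v : Fin (m + 1) → ZMod l // v 0 = 1}
  have h2 : ∃ v : Hy, g.1 v.1 = v.1 := by
    let f : Function.End Hy := fun v => ⟨g.1 v.1, (g.2 v.1).trans v.2⟩
    have hf : ∀ (n : ℕ) (v : Hy), ((f ^ n) v).1 = (g.1 ^ n) v.1 := by
      intro n
      induction n with
      | zero => intro v; rfl
      | succ n ih =>
        intro v
        rw [pow_succ, pow_succ]
        exact ih (f v)
    have := Equiv.Perm.card_fixedPoints_modEq (α := Hy) (f := f) (p := m + 2) (n := 1) (by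
      funext v
      rw [pow_one]
      exact Subtype.ext ((hf _ v).trans (hit v.1)))
    have hc : Fintype.card Hy = l ^ m := by
      have e : Hy ≃ (Fin m → ZMod l) :=
        { toFun := fun v i => v.1 i.succ
          invFun := fun w => ⟨Fin.cons 1 w, rfl⟩
          left_inv := fun v => Subtype.ext (by
            funext i
            refine Fin.cases ?_ (fun i => ?_) i
            · exact v.2.symm
            · rfl)
          right_inv := fun w => rfl }
      rw [Fintype.card_congr e]
      simp
    by_contra hno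
    have h0 : Fintype.card (Function.fixedPoints f) = 0 := by
      rw [Fintype.card_eq_zero_iff]
      exact ⟨fun v => hno ⟨v.1, congrArg Subtype.val v.2⟩⟩
    rw [hc, h0, ← ZMod.natCast_eq_natCast_iff] at this
    simp at this
    exact hlu this.1
  obtain ⟨v, hv⟩ := h2
  have hU : Nat.card U = l ^ Module.finrank (ZMod l) U := by
    rw [Module.natCard_eq_pow_finrank (K := ZMod l)]
    simp
  have hle : Module.finrank (ZMod l) U ≤ m + 1 := by
    simpa using Submodule.finrank_le U
  have hpos : 0 < Module.finrank (ZMod l) U := by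
    rw [Module.finrank_pos_iff_exists_ne_zero]
    refine ⟨⟨v.1, hv⟩, fun h => ?_⟩
    have h3 := congrFun (congrArg Subtype.val h) 0
    have h4 := v.2
    simp at h3
    rw [h3] at h4
    exact zero_ne_one h4
  rw [hU, ← ZMod.natCast_eq_natCast_iff] at h1
  simp only [Fintype.card_pi, ZMod.card, Finset.prod_const, Finset.card_univ, Fintype.card_fin,
    Nat.cast_pow] at h1
  have h5 : (l : ZMod (m + 2)) ^ (m + 1) = 1 := by rw [← hl, pow_orderOf_eq_one]
  have h6 : m + 1 ∣ Module.finrank (ZMod l) U := by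
    have := orderOf_dvd_of_pow_eq_one (h1.symm.trans h5)
    rwa [hl] at this
  have h7 : Module.finrank (ZMod l) U = m + 1 := le_antisymm hle (Nat.le_of_dvd hpos h6)
  have h8 : U = ⊤ := Submodule.eq_top_of_finrank_eq (by simpa using h7)
  apply Subtype.ext
  ext w i
  have : w ∈ U := h8 ▸ Submodule.mem_top
  exact congrFun this i

theorem loc_prime (m : ℕ) (hm : 1 ≤ m) [hp : Fact (m + 2).Prime] (N : ℕ) :
    Loc (NoP (m + 2)) (m + 1) N := by
  obtain ⟨u, hu⟩ := IsCyclic.exists_ofOrder_eq_natCard (α := (ZMod (m + 2))ˣ)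
  obtain ⟨l, hlN, hl, hlu⟩ := Nat.forall_exists_prime_gt_and_eq_mod u.isUnit N
  have : Fact l.Prime := ⟨hl⟩
  have hord : orderOf (l : ZMod (m + 2)) = m + 1 := by
    rw [hlu, orderOf_units, hu, Nat.card_eq_fintype_card, ZMod.card_units]
    rfl
  have : Finite ((Fin (m + 1) → ZMod l) ≃ₗ[ZMod l] (Fin (m + 1) → ZMod l)) :=
    Finite.of_injective _ DFunLike.coe_injective
  let e : Fin N ↪ ZMod l := ⟨fun i => ((i : ℕ) : ZMod l), fun i j h => by
    have := (ZMod.natCast_eq_natCast_iff' _ _ _).1 h
    rw [Nat.mod_eq_of_lt (by omega), Nat.mod_eq_of_lt (by omega)] at this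
    exact Fin.ext this⟩
  let S : Stage (NoP (m + 2)) :=
    { G := Aff (ZMod l) m
      X := Fin (m + 1) → ZMod l
      faith := fun g hg => Subtype.ext (LinearEquiv.ext hg)
      good := aff_noP l m hord }
  refine ⟨S, ⟨fun t j => e t ^ (j : ℕ), fun t t' h => e.injective ?_⟩, fun a b => ?_⟩
  · have := congrFun h ⟨1, by omega⟩
    simpa using this
  · exact aff_trans (ZMod l) m (a.trans e) (b.trans e)

theorem main (p : ℕ) (hp : p.Prime) (h3 : 3 ≤ p) :
    ∃ (G : Type) (_ : Group G), Infinite G ∧ Countable G ∧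
      (∃ (X : Type) (_ : MulAction G X),
          Nonempty (Fin (p - 1) ↪ X) ∧
          (∀ g : G, (∀ x : X, g • x = x) → g = 1) ∧
          ∀ x y : Fin (p - 1) ↪ X, ∃ g : G, ∀ i, g • x i = y i) ∧
      ∀ (X : Type) (_ : MulAction G X),
          Nonempty (Fin p ↪ X) → ¬ ∀ x y : Fin p ↪ X, ∃ g : G, ∀ i, g • x i = y i := by
  obtain ⟨m, rfl⟩ : ∃ m, p = m + 2 := ⟨p - 2, by omega⟩
  have : Fact (m + 2).Prime := ⟨hp⟩
  let S₀ : Stage (NoP (m + 2)) :=
    { G := PUnit
      X := PUnit
      faith := fun _ _ => rfl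
      good := fun _ _ => rfl }
  obtain ⟨G, _, hinf, hc, hact, hloc⟩ := tower (m + 1) (by omega) S₀
    (fun L Q _ _ _ _ => noP_wreath (m + 2) L Q) (loc_prime m (by omega))
  refine ⟨G, inferInstance, hinf, hc, hact, ?_⟩
  rintro X _ ⟨x⟩ htr
  obtain ⟨g, hg⟩ := htr x ((Equiv.addRight (1 : Fin (m + 2))).toEmbedding.trans x)
  obtain ⟨H, _, _, ψ, hH, hu⟩ := hloc Unit (fun _ => g)
  obtain ⟨h, rfl⟩ := hu ()
  have hpow : ∀ n : ℕ, ψ h ^ n • x 0 = x (Fin.ofNat (m + 2) n) := by
    intro n
    induction n with
    | zero => simp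
    | succ n ih =>
      rw [pow_succ', mul_smul, ih, hg]
      show x (Fin.ofNat (m + 2) n + 1) = _
      congr 1
      apply Fin.ext
      simp [Fin.val_add]
  have hdvd : m + 2 ∣ orderOf h := by
    have := hpow (orderOf h)
    rw [← map_pow, pow_orderOf_eq_one, map_one, one_smul] at this
    have h2 := congrArg Fin.val (x.injective this)
    exact Nat.dvd_of_mod_eq_zero (by simpa using h2.symm)
  obtain ⟨c, hc'⟩ := hdvd
  have hpos : 0 < orderOf h := orderOf_pos h
  have h1 : h ^ c = 1 := hH _ (by rw [← pow_mul, mul_comm, ← hc', pow_orderOf_eq_one])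
  have h2 := orderOf_dvd_of_pow_eq_one h1
  have hc0 : 0 < c := Nat.pos_of_ne_zero (by rintro rfl; omega)
  have h3 := Nat.le_of_dvd hc0 h2
  nlinarith

end Pool.Agent.H670Z.Prime
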