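import Mathlib

/-!
Towers of regular wreath products in product action: a locally finite group, all of whose
finite pieces lie in a class closed under wreath products, acting `k`-transitively.
-/

set_option autoImplicit false

namespace Pool.Agent.H670Z.Tower

/-- A finite group acting faithfully on a finite set, with a property `P`. -/
structure Stage (P : (G : Type) → [Group G] → Prop) where
  G : Type
  X : Type
  [grp : Group G]
  [act : MulAction G X]
  [finG : Finite G]
  [finX : Finite X]
  faith : ∀ g : G, (∀ x : X, g • x = x) → g = 1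
  good : P G

attribute [instance] Stage.grp Stage.act Stage.finG Stage.finX

variable {P : (G : Type) → [Group G] → Prop}

/-- The data of one step of the tower. -/
structure Step (k : ℕ) (S T : Stage P) where
  φ : S.G →* T.G
  j : S.X ↪ T.X
  equiv : ∀ g x, j (g • x) = φ g • j x
  trans : ∀ a b : Fin k ↪ S.X, ∃ t : T.G, ∀ i, t • j (a i) = j (b i)
  grow : Nat.card S.X < Nat.card T.X

/-- product action of the regular wreath product -/
@[reducible] def prodAct (L Q A : Type) [Group L] [Group Q] [MulAction L A] :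
    MulAction (L ≀ᵣ Q) (Q → A) where
  smul w f := fun x => w.left x • f (w.right⁻¹ * x)
  one_smul f := by
    funext x
    show (1 : L ≀ᵣ Q).left x • f ((1 : L ≀ᵣ Q).right⁻¹ * x) = f x
    simp
  mul_smul a b f := by
    funext x
    show (a * b).left x • f ((a * b).right⁻¹ * x) =
      a.left x • (b.left (a.right⁻¹ * x) • f (b.right⁻¹ * (a.right⁻¹ * x)))
    simp [mul_smul, mul_assoc]

/-- `L` makes all `k`-tuples of an `N`-set equivalent. -/
def Loc (P : (G : Type) → [Group G] → Prop) (k N : ℕ) : Prop :=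
  ∃ S : Stage P, ∃ ι : Fin N ↪ S.X, ∀ a b : Fin k ↪ Fin N, ∃ t : S.G, ∀ i, t • ι (a i) = ι (b i)

theorem exists_step (k : ℕ)
    (hw : ∀ (L Q : Type) [Group L] [Group Q] [Finite L] [Finite Q], P L → P Q → P (L ≀ᵣ Q))
    (hL : ∀ N, Loc P k N) (S : Stage P) : ∃ T : Stage P, Nonempty (Step k S T) := by
  classical
  obtain ⟨L, ι, hι⟩ := hL (Nat.card S.X + 2)
  have hA : Nat.card S.X + 2 ≤ Nat.card L.X := by
    simpa using Nat.card_le_card_of_injective ι ι.injective
  let e : S.X ↪ Fin (Nat.card S.X + 2) :=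
    (Finite.equivFin S.X).toEmbedding.trans (Fin.castLEEmb (by omega))
  let _ := prodAct L.G S.G L.X
  have hsm : ∀ (w : L.G ≀ᵣ S.G) (f : S.G → L.X) (x : S.G),
      (w • f) x = w.left x • f (w.right⁻¹ * x) := fun _ _ _ => rfl
  let T : Stage P :=
    { G := L.G ≀ᵣ S.G
      X := S.G → L.X
      faith := by
        intro w hwf
        have h1 : w.left = 1 := by
          funext x
          apply L.faith
          intro a
          have := congrFun (hwf (fun _ => a)) x
          rwa [hsm] at this
        have h2 : w.right = 1 := by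
          by_contra hne
          have := congrFun (hwf (fun y => if y = 1 then ι 0 else ι 1)) w.right
          rw [hsm, h1] at this
          simp [hne] at this
        ext <;> simp [h1, h2]
      good := hw _ _ L.good S.good }
  refine ⟨T, ⟨⟨RegularWreathProduct.inl, ⟨fun ω x => ι (e (x⁻¹ • ω)), ?_⟩, ?_, ?_, ?_⟩⟩⟩
  · intro ω ω' h
    have := congrFun h 1
    simpa using this
  · intro g ω
    funext x
    show ι (e (x⁻¹ • g • ω)) = ((RegularWreathProduct.inl g : L.G ≀ᵣ S.G) •
      (fun x => ι (e (x⁻¹ • ω)))) x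
    rw [hsm]
    simp [mul_smul]
  · intro a b
    have : ∀ x : S.G, ∃ t : L.G, ∀ i, t • ι (e (x⁻¹ • a i)) = ι (e (x⁻¹ • b i)) := by
      intro x
      exact hι ⟨fun i => e (x⁻¹ • a i), fun i i' h => a.injective
          (MulAction.injective _ (e.injective h))⟩
        ⟨fun i => e (x⁻¹ • b i), fun i i' h => b.injective
          (MulAction.injective _ (e.injective h))⟩
    choose s hs using this
    refine ⟨⟨s, 1⟩, fun i => ?_⟩
    funext x
    show ((⟨s, 1⟩ : L.G ≀ᵣ S.G) • (fun x => ι (e (x⁻¹ • a i)))) x = ι (e (x⁻¹ • b i))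
    rw [hsm]
    simpa using hs x i
  · show Nat.card S.X < Nat.card (S.G → L.X)
    have : Nat.card L.X ≤ Nat.card (S.G → L.X) :=
      Nat.card_le_card_of_injective (fun a _ => a) (fun a b h => congrFun h 1)
    omega

section limit

variable {k : ℕ} (S : ℕ → Stage P) (st : ∀ n, Step k (S n) (S (n + 1)))

/-- transition homomorphisms -/
def fG (i j : ℕ) (h : i ≤ j) : (S i).G →* (S j).G :=
  Nat.leRec (motive := fun j _ => (S i).G →* (S j).G) (MonoidHom.id _)
    (fun m _ g => (st m).φ.comp g) h

/-- transition embeddings -/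
def fX (i j : ℕ) (h : i ≤ j) : (S i).X ↪ (S j).X :=
  Nat.leRec (motive := fun j _ => (S i).X ↪ (S j).X) (Function.Embedding.refl _)
    (fun m _ g => g.trans (st m).j) h

theorem fG_self (i : ℕ) (x : (S i).G) : fG S st i i le_rfl x = x := by
  simp [fG]

theorem fX_self (i : ℕ) (x : (S i).X) : fX S st i i le_rfl x = x := by
  simp [fX]

theorem fG_succ (i j : ℕ) (h : i ≤ j) (h' : i ≤ j + 1) (x : (S i).G) :
    fG S st i (j + 1) h' x = (st j).φ (fG S st i j h x) := by
  unfold fG
  rw [Nat.leRec_succ _ _ h]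
  rfl

theorem fX_succ (i j : ℕ) (h : i ≤ j) (h' : i ≤ j + 1) (x : (S i).X) :
    fX S st i (j + 1) h' x = (st j).j (fX S st i j h x) := by
  unfold fX
  rw [Nat.leRec_succ _ _ h]
  rfl

instance dsG : DirectedSystem (fun i => (S i).G) (fG S st · · ·) where
  map_self i x := fG_self S st i x
  map_map m j i hij hjm x := by
    induction m, hjm using Nat.le_induction with
    | base => exact fG_self S st j _
    | succ m hm ih =>
      show fG S st j (m + 1) _ _ = fG S st i (m + 1) _ x
      rw [fG_succ S st j m hm, fG_succ S st i m (hij.trans hm)]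
      exact congrArg _ ih

instance dsX : DirectedSystem (fun i => (S i).X) (fX S st · · ·) where
  map_self i x := fX_self S st i x
  map_map m j i hij hjm x := by
    induction m, hjm using Nat.le_induction with
    | base => exact fX_self S st j _
    | succ m hm ih =>
      show fX S st j (m + 1) _ _ = fX S st i (m + 1) _ x
      rw [fX_succ S st j m hm, fX_succ S st i m (hij.trans hm)]
      exact congrArg _ ih

theorem f_smul (i j : ℕ) (h : i ≤ j) (g : (S i).G) (x : (S i).X) :
    fX S st i j h (g • x) = fG S st i j h g • fX S st i j h x := by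
  induction j, h using Nat.le_induction with
  | base => rw [fX_self, fX_self, fG_self]
  | succ m hm ih => rw [fX_succ S st i m hm, fX_succ S st i m hm, fG_succ S st i m hm, ih,
      (st m).equiv]

/-- limit group -/
abbrev GLim := DirectLimit (fun i => (S i).G) (fG S st)

/-- limit set -/
abbrev XLim := DirectLimit (fun i => (S i).X) (fX S st)

/-- limit action -/
noncomputable def lsmul : GLim S st → XLim S st → XLim S st :=
  DirectLimit.map₂ (fG S st) (fX S st) (fX S st) (fun _ g x => g • x)
    (fun i j h g x => f_smul S st i j h g x)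

theorem lsmul_mk (i : ℕ) (g : (S i).G) (x : (S i).X) :
    lsmul S st ⟦⟨i, g⟩⟧ ⟦⟨i, x⟩⟧ = ⟦⟨i, g • x⟩⟧ :=
  DirectLimit.map₂_def ..

theorem exists_common {α : Type} [Finite α] {F : ℕ → Type}
    {T : ∀ ⦃i j : ℕ⦄, i ≤ j → Type} (f : ∀ i j (h : i ≤ j), T h)
    [∀ ⦃i j⦄ (h : i ≤ j), FunLike (T h) (F i) (F j)] [DirectedSystem F (f · · ·)]
    (u : α → DirectLimit F f) (n : ℕ) : ∃ m, n ≤ m ∧ ∃ v : α → F m, ∀ a, u a = ⟦⟨m, v a⟩⟧ := by
  choose i x hx using fun a => DirectLimit.exists_eq_mk f (u a)
  obtain ⟨M, hM⟩ := (Set.finite_range i).bddAbove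
  refine ⟨max n M, le_max_left _ _, fun a => f _ _ ((hM ⟨a, rfl⟩).trans (le_max_right _ _)) (x a),
    fun a => ?_⟩
  rw [hx a, DirectLimit.mk_apply]

/-- limit action -/
@[reducible] noncomputable def lact : MulAction (GLim S st) (XLim S st) where
  smul := lsmul S st
  one_smul x := by
    obtain ⟨i, x, rfl⟩ := DirectLimit.exists_eq_mk _ x
    show lsmul S st 1 _ = _
    rw [DirectLimit.one_def i, lsmul_mk, one_smul]
  mul_smul a b x := by
    obtain ⟨i, a, b, rfl, rfl⟩ := DirectLimit.exists_eq_mk₂ _ a b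
    obtain ⟨j, x, rfl⟩ := DirectLimit.exists_eq_mk _ x
    show lsmul S st _ _ = lsmul S st _ (lsmul S st _ _)
    rw [← DirectLimit.mk_apply (f := fG S st) i (max i j) a (le_max_left _ _),
      ← DirectLimit.mk_apply (f := fG S st) i (max i j) b (le_max_left _ _),
      ← DirectLimit.mk_apply (f := fX S st) j (max i j) x (le_max_right _ _), DirectLimit.mul_def,
      lsmul_mk, lsmul_mk, lsmul_mk, mul_smul]

theorem mkX_inj (i : ℕ) : Function.Injective fun x : (S i).X => (⟦⟨i, x⟩⟧ : XLim S st) :=
  DirectLimit.mk_injective _ (fun i j h => (fX S st i j h).injective) i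

include st in
theorem limit_thm (hk : 1 ≤ k) :
    ∃ (G : Type) (_ : Group G), Infinite G ∧ Countable G ∧
      (∃ (X : Type) (_ : MulAction G X), Nonempty (Fin k ↪ X) ∧
        (∀ g : G, (∀ x : X, g • x = x) → g = 1) ∧
        ∀ x y : Fin k ↪ X, ∃ g : G, ∀ i, g • x i = y i) ∧
      ∀ (α : Type) [Finite α] (u : α → G), ∃ (H : Type) (_ : Group H) (_ : Finite H)
        (ψ : H →* G), P H ∧ ∀ a, u a ∈ ψ.range := by
  classical
  let _ := lact S st
  have hsm : ∀ (i : ℕ) (g : (S i).G) (x : (S i).X),
      (⟦⟨i, g⟩⟧ : GLim S st) • (⟦⟨i, x⟩⟧ : XLim S st) = (⟦⟨i, g • x⟩⟧ : XLim S st) :=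
    lsmul_mk S st
  have hcard : ∀ n, n ≤ Nat.card (S n).X := by
    intro n
    induction n with
    | zero => exact Nat.zero_le _
    | succ n ih => exact lt_of_le_of_lt ih (st n).grow
  have hXinf : Infinite (XLim S st) := by
    by_contra hfin
    rw [not_infinite_iff_finite] at hfin
    have h1 : Nat.card (S (Nat.card (XLim S st) + 1)).X ≤ Nat.card (XLim S st) :=
      Nat.card_le_card_of_injective _ (mkX_inj S st (Nat.card (XLim S st) + 1))
    have h2 := hcard (Nat.card (XLim S st) + 1)
    omega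
  have htr : ∀ x y : Fin k ↪ XLim S st, ∃ g : GLim S st, ∀ i, g • x i = y i := by
    intro x y
    obtain ⟨m, -, v, hv⟩ := exists_common (fX S st) (Sum.elim x y) 0
    have hx : ∀ i, x i = ⟦⟨m, v (Sum.inl i)⟩⟧ := fun i => hv (Sum.inl i)
    have hy : ∀ i, y i = ⟦⟨m, v (Sum.inr i)⟩⟧ := fun i => hv (Sum.inr i)
    obtain ⟨t, ht⟩ := (st m).trans
      ⟨fun i => v (Sum.inl i), fun i i' h => x.injective (by rw [hx, hx]; exact congrArg _ (by
        simpa using h))⟩
      ⟨fun i => v (Sum.inr i), fun i i' h => y.injective (by rw [hy, hy]; exact congrArg _ (by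
        simpa using h))⟩
    refine ⟨⟦⟨m + 1, t⟩⟧, fun i => ?_⟩
    rw [hx, hy, ← DirectLimit.mk_apply (f := fX S st) m (m + 1) (v (Sum.inl i)) (Nat.le_succ m),
      ← DirectLimit.mk_apply (f := fX S st) m (m + 1) (v (Sum.inr i)) (Nat.le_succ m), hsm,
      fX_succ S st m m le_rfl, fX_succ S st m m le_rfl, fX_self, fX_self]
    exact congrArg (fun z => (⟦⟨m + 1, z⟩⟧ : XLim S st)) (ht i)
  have hne : Nonempty (Fin k ↪ XLim S st) :=
    ⟨Fin.valEmbedding.trans (Infinite.natEmbedding _)⟩
  refine ⟨GLim S st, inferInstance, ?_, inferInstance, ⟨XLim S st, inferInstance, hne, ?_, htr⟩, ?_⟩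
  · by_contra hfin
    rw [not_infinite_iff_finite] at hfin
    obtain ⟨x⟩ := hne
    have hsurj : Function.Surjective fun g : GLim S st => g • x ⟨0, hk⟩ := by
      intro z
      obtain ⟨g, hg⟩ := htr x (x.trans (Equiv.swap (x ⟨0, hk⟩) z).toEmbedding)
      exact ⟨g, by simpa using hg ⟨0, hk⟩⟩
    exact not_finite_iff_infinite.2 hXinf (Finite.of_surjective _ hsurj)
  · intro g hg
    obtain ⟨i, g, rfl⟩ := DirectLimit.exists_eq_mk _ g
    have : g = 1 := by
      apply (S i).faith
      intro x
      apply mkX_inj S st i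
      have := hg ⟦⟨i, x⟩⟧
      rwa [hsm] at this
    rw [this, ← DirectLimit.one_def]
  · intro α _ u
    obtain ⟨m, -, v, hv⟩ := exists_common (fG S st) u 0
    refine ⟨(S m).G, inferInstance, inferInstance,
      { toFun := fun g => ⟦⟨m, g⟩⟧
        map_one' := (DirectLimit.one_def m).symm
        map_mul' := fun a b => (DirectLimit.mul_def (f := fG S st) m a b).symm }, (S m).good,
      fun a => ⟨v a, (hv a).symm⟩⟩

end limit

theorem tower (k : ℕ) (hk : 1 ≤ k) (S₀ : Stage P)
    (hw : ∀ (L Q : Type) [Group L] [Group Q] [Finite L] [Finite Q], P L → P Q → P (L ≀ᵣ Q))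
    (hL : ∀ N, Loc P k N) :
    ∃ (G : Type) (_ : Group G), Infinite G ∧ Countable G ∧
      (∃ (X : Type) (_ : MulAction G X), Nonempty (Fin k ↪ X) ∧
        (∀ g : G, (∀ x : X, g • x = x) → g = 1) ∧
        ∀ x y : Fin k ↪ X, ∃ g : G, ∀ i, g • x i = y i) ∧
      ∀ (α : Type) [Finite α] (u : α → G), ∃ (H : Type) (_ : Group H) (_ : Finite H)
        (ψ : H →* G), P H ∧ ∀ a, u a ∈ ψ.range := by
  classical
  choose nx hnx using exists_step k hw hL
  let S : ℕ → Stage P := fun n => Nat.rec S₀ (fun _ T => nx T) n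
  let st : ∀ n, Step k (S n) (S (n + 1)) := fun n => (hnx (S n)).some
  exact limit_thm S st hk

end Pool.Agent.H670Z.Tower
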